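import Mathlib
import Pool.Agent.Helper36z.Gen
import Pool.Agent.TH900.XM.Meas

set_option autoImplicit false

/-!
# Generators of fields containing `ζ(11), ζ(13), …, ζ(27)`, and the rank of these numbers over `ℚ`

The simultaneous irrationality measure of the starting library (`Pool/Agent/TH900/XM/Meas.lean`, exponent
`1628`) is applied to the fractions `P_j(p/q) / Q(p/q)` with the common denominator `q ^ d Q(p/q)`, where
`p/q` is a rational point near `η`.
-/

namespace Pool.Agent.Results.MP_4f096c_nt.CommonGenerator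

/-- the odd numbers from `11` to `27` -/
def T : Finset ℕ := {11, 13, 15, 17, 19, 21, 23, 25, 27}

/-- `ζ(i) = ∑ 1/(n+1)^i` -/
noncomputable def zeta (i : ℕ) : ℝ := ∑' n : ℕ, 1 / ((n : ℝ) + 1) ^ i

/-- there is `C > 0` such that `|x - p / q| ≥ C q ^ (-w)` for all integers `p` and `q ≥ 1` -/
def HasMeasure (x : ℝ) (w : ℕ) : Prop :=
  ∃ C : ℝ, 0 < C ∧ ∀ (p : ℤ) (q : ℕ), 0 < q → C / (q : ℝ) ^ w ≤ |x - p / q|

theorem meas : ∃ c : ℝ, 0 < c ∧ Pool.Agent.Helper36z.CG.Meas T zeta 1628 c := by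
  obtain ⟨c, hc, h⟩ := Pool.Agent.TH900.XM.measure
  exact ⟨c, hc, fun a q hq => h a q hq⟩

theorem exists_irrational : ∃ i ∈ T, Irrational (zeta i) := by
  by_contra hcon
  push Not at hcon
  obtain ⟨c, hc, h⟩ := meas
  classical
  have h1 : ∀ j : ℕ, ∃ z : ℚ, j ∈ T → (z : ℝ) = zeta j := by
    intro j
    by_cases hj : j ∈ T
    · have := hcon j hj
      unfold Irrational at this
      push Not at this
      obtain ⟨z, hz⟩ := this
      exact ⟨z, fun _ => hz⟩
    · exact ⟨0, fun h => absurd h hj⟩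
  choose z hz using h1
  set D : ℕ := ∏ j ∈ T, (z j).den with hD
  have hD0 : 0 < D := Finset.prod_pos fun j _ => (z j).den_pos
  obtain ⟨j, hj, h2⟩ := h (fun j => (D / (z j).den : ℕ) * (z j).num) D hD0
  have h3 : (z j).den ∣ D := Finset.dvd_prod_of_mem _ hj
  obtain ⟨e, he⟩ := h3
  have h4 : D / (z j).den = e := by
    rw [he, Nat.mul_div_cancel_left _ (z j).den_pos]
  have h5 : ((z j : ℚ) : ℝ) * (z j).den = (z j).num := by
    have := Rat.mul_den_eq_num (z j)
    exact_mod_cast this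
  have h6 : (D : ℝ) = (z j).den * e := by rw [he]; push_cast; rfl
  have h7 : zeta j - (((D / (z j).den : ℕ) * (z j).num : ℤ) : ℝ) / D = 0 := by
    rw [h4, ← hz j hj]
    push_cast
    have hDR : (D : ℝ) ≠ 0 := by exact_mod_cast hD0.ne'
    rw [sub_eq_zero, eq_div_iff hDR, h6, ← h5]
    ring
  rw [h7, abs_zero] at h2
  have hDR : (0 : ℝ) < D := by exact_mod_cast hD0
  have h8 : 0 < c / (D : ℝ) ^ 1628 := by positivity
  linarith

/-- (1) If `ζ(j) = P_j(η) / Q(η)` for all odd `j` from `11` to `27`, with real numbers `η = (η_1, …, η_m)` and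
integer polynomials `P_j`, `Q` of total degree at most `d`, then `max |η_i - p_i / q| ≥ C q ^ (-1628 d)` for all
`p`, `q`. (2) Either `1` and two of these numbers are linearly independent over `ℚ`, or one of them is
irrational and all the irrational ones have the irrationality measure `1628`. -/
theorem result :
    (∀ (m : ℕ) (η : Fin m → ℝ) (d : ℕ) (Q : MvPolynomial (Fin m) ℤ) (P : ℕ → MvPolynomial (Fin m) ℤ),
      Q.totalDegree ≤ d → (∀ j ∈ T, (P j).totalDegree ≤ d) → MvPolynomial.aeval η Q ≠ 0 →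
      (∀ j ∈ T, zeta j = MvPolynomial.aeval η (P j) / MvPolynomial.aeval η Q) →
      ∃ C : ℝ, 0 < C ∧ ∀ (p : Fin m → ℤ) (q : ℕ), 0 < q →
        ∃ i, C / (q : ℝ) ^ (1628 * d) ≤ |η i - p i / q|) ∧
    ((∃ i ∈ T, ∃ j ∈ T, LinearIndependent ℚ ![(1 : ℝ), zeta i, zeta j]) ∨
      ((∃ i ∈ T, Irrational (zeta i)) ∧ ∀ i ∈ T, Irrational (zeta i) → HasMeasure (zeta i) 1628)) := by
  obtain ⟨c, hc, h⟩ := meas
  refine ⟨fun m η d Q P hQd hPd hQ hx => ?_, ?_⟩
  · exact Pool.Agent.Helper36z.CG.common_mv T zeta 1628 hc h η d Q P hQd hPd hQ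
      fun j hj => by rw [hx j hj, div_mul_cancel₀ _ hQ]
  · rcases Pool.Agent.Helper36z.CG.dichotomy T zeta 1628 hc h with h1 | h1
    · exact Or.inl h1
    · exact Or.inr ⟨exists_irrational, h1⟩

end Pool.Agent.Results.MP_4f096c_nt.CommonGenerator
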