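import Mathlib
import Pool.Agent.Results.MP_4f096c_nt.MeasureZeta11To27
import Pool.Agent.H18Z.All

/-!
# Exponential sums with `ζ(11), ζ(13), …, ζ(27)` at every scale

By the starting files one of the nine numbers `ζ(11), ζ(13), …, ζ(27)` is irrational, and they have a simultaneous
measure of irrationality (`MeasureZeta11To27`, exponent `1628`). If `x` is irrational then the sequence `n x` is
equidistributed modulo one, and so are the values `P(n)` of the polynomials with leading coefficient `x` (Weyl) and the
sequence `p x`, `p` prime (Vinogradov), but without information on `x` there is no estimate which holds at all scales.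
We show:

(1) For every `D` there is `δ > 0` such that for EVERY large `N` one of the nine numbers `x = ζ(j)` has the property
`PowerSaving D δ N x`: for all integers `k`, `1 ≤ |k| ≤ N ^ δ`, and all real polynomials `P` of degree between `1` and `D`
with leading coefficient `k x` the Weyl sum `∑_{n < N} e(P(n))` is at most `N ^ (1 - δ)`; and for all `N ≤ N' ≤ 2 N` the
sums of `Λ(n) e(n k x)` and of `μ(n) e(n k x)` over `N < n ≤ N'` are at most `N ^ (1 - δ)`. The number `x` depends on `N`,
but not on `P` and `k`. The lower coefficients of `P` are arbitrary, so the Weyl sums over all intervals of length `N`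
are covered; the frequencies `k ≤ N ^ δ` give the equidistribution modulo one with a power saving.

(2) One of the nine numbers `x` is such that for every `D` there is `δ > 0` with `PowerSaving D δ N x` for infinitely
many `N`.

(3) A rational number `x ≠ 0` does not have the property `PowerSaving D δ N x` for large `N` (`D ≥ 1`, `δ > 0`). So (1)
contains the irrationality of one of the nine numbers.

**Proof.** If at the scale `N` each `ζ(j)` is near a fraction with a denominator `q_j ≤ N ^ θ`, then the product of the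
`q_j` is a common denominator, which contradicts the measure if `θ` is small (`S_GOO`). So for each large `N` some `ζ(j)`
is not near a fraction with a small denominator at the scale `N` (`Good`). The sums are estimated with the inverse
theorem for Weyl sums (starting library, `Pool.Agent.H373R2.NB.IW_all`) and with the estimates for the von Mangoldt and
Moebius functions of Vaughan's type (`Pool.Agent.H373R2.T7.block_lin`, `block_mu`) at the scale `N`.

The pieces of the proof in `Pool/Agent/H18Z` were written by helper22 (DIR), helper24 (RAT), helper39 (PHP), helper41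
(PRI), helper82 (WEY) and helper18; helper42 compiled the final file.
-/

set_option autoImplicit false

namespace Pool.Agent.Results.MP_4f096c_nt.ExponentialSumsAtEveryScale

open Pool.Agent.H18Z

/-- `ζ(j) = ∑ 1 / (n + 1) ^ j` -/
noncomputable def zeta (j : ℕ) : ℝ := ∑' n : ℕ, 1 / ((n : ℝ) + 1) ^ j

theorem meas : Meas zeta {11, 13, 15, 17, 19, 21, 23, 25, 27} 1628 := by
  obtain ⟨c, hc, h⟩ := Pool.Agent.Results.MP_4f096c_nt.MeasureZeta11To27.result
  refine ⟨c, hc, fun a q hq => ?_⟩
  obtain ⟨j, h1, h2, h3, h4⟩ := h a q hq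
  refine ⟨j, ?_, h4⟩
  obtain ⟨m, rfl⟩ := h1
  have h5 : 5 ≤ m := by omega
  have h6 : m ≤ 13 := by omega
  interval_cases m <;> decide

theorem mem_T {j : ℕ} (hj : j ∈ ({11, 13, 15, 17, 19, 21, 23, 25, 27} : Finset ℕ)) : Odd j ∧ 11 ≤ j ∧ j ≤ 27 := by
  fin_cases hj <;> decide

/-- **Exponential sums at every scale.** (1) For every `D` there are `δ > 0` and `N₀` such that for every `N ≥ N₀` one of
the nine numbers `ζ(11), ζ(13), …, ζ(27)` has a power saving `δ` at the scale `N` (`PowerSaving`: Weyl sums of degree at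
most `D`, sums over primes, sums with the Moebius function). (2) One of the nine numbers has, for every `D` with some
`δ > 0`, this property for infinitely many `N`. (3) Rational numbers `x ≠ 0` do not have it for large `N`. -/
theorem result :
    (∀ D : ℕ, ∃ δ : ℝ, 0 < δ ∧ ∃ N₀ : ℕ, ∀ N : ℕ, N₀ ≤ N →
      ∃ j : ℕ, Odd j ∧ 11 ≤ j ∧ j ≤ 27 ∧ PowerSaving D δ N (zeta j)) ∧
    (∃ j : ℕ, Odd j ∧ 11 ≤ j ∧ j ≤ 27 ∧ ∀ D : ℕ, ∃ δ : ℝ, 0 < δ ∧ ∀ N₀ : ℕ, ∃ N : ℕ, N₀ ≤ N ∧
      PowerSaving D δ N (zeta j)) ∧
    (∀ x : ℚ, x ≠ 0 → ∀ D : ℕ, 1 ≤ D → ∀ δ : ℝ, 0 < δ → ∃ N₀ : ℕ, ∀ N : ℕ, N₀ ≤ N →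
      ¬ PowerSaving D δ N (x : ℝ)) := by
  refine ⟨fun D => ?_, ?_, fun x hx D hD δ hδ => main_rat x hx D hD δ hδ⟩
  · obtain ⟨δ, hδ, N₀, h⟩ := main zeta _ 1628 meas D
    refine ⟨δ, hδ, N₀, fun N hN => ?_⟩
    obtain ⟨j, hj, hp⟩ := h N hN
    obtain ⟨h1, h2, h3⟩ := mem_T hj
    exact ⟨j, h1, h2, h3, hp⟩
  · obtain ⟨j, hj, h⟩ := main_one zeta _ 1628 meas
    obtain ⟨h1, h2, h3⟩ := mem_T hj
    exact ⟨j, h1, h2, h3, h⟩

end Pool.Agent.Results.MP_4f096c_nt.ExponentialSumsAtEveryScale
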