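import Mathlib
import Pool.Agent.R473.FV.Fam
import Pool.Agent.TH900.XM.Meas

/-!
# No finite automaton predicts the digits of all the numbers `ζ(11), ζ(13), …, ζ(27)` with few errors

A predictor with `Q` states reads the digits of a number one after the other and predicts each next
digit from its state.  If the digits of `x` in base `b` are eventually periodic, that is if `x` is
rational, then some predictor makes only finitely many errors.  By the starting files one of the nine
numbers `ζ(11), ζ(13), …, ζ(27)` is irrational.  Here we prove: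

(1) an inequality between the lengths, the numbers of states and the total number of errors of nine
predictors which work on the digits of the nine numbers in nine bases;

(2) for every `θ < 1` one of the nine numbers is such that in every base, for infinitely many `N`,
every predictor with at most `N ^ θ` states makes more than `((1 - θ) / 87) log N` errors on the first
`N` digits;

(3) with some constant `c(θ)` in place of `(1 - θ) / 87` this holds for ONE of the nine numbers and all
`θ < 1`.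

Proof: the simultaneous measure of the starting files (exponent `1628`).  Without errors an automaton
is autonomous and its state runs into a cycle, which gives a rational approximation of the
corresponding number; the approximations are combined, on the common time scale `n log b`.
-/

set_option autoImplicit false

open Finset

namespace Pool.Agent.Results.MP_4f096c_nt.FiniteStatePredictors

/-- the `i`-th digit of `x` after the point in base `b` -/
noncomputable def digit (b : ℕ) (x : ℝ) (i : ℕ) : ℤ := ⌊x * (b : ℝ) ^ i⌋ % (b : ℤ)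

/-- A predictor: a finite automaton with `Q` states, transitions `δ`, initial state `q₀` and
predictions `out`. -/
structure Predictor where
  /-- the number of states -/
  Q : ℕ
  /-- the next state -/
  δ : Fin Q → ℤ → Fin Q
  /-- the initial state -/
  q₀ : Fin Q
  /-- the prediction -/
  out : Fin Q → ℤ

/-- the state of the predictor after it has read `d 1, …, d n` -/
def Predictor.state (M : Predictor) (d : ℕ → ℤ) : ℕ → Fin M.Q
  | 0 => M.q₀
  | n + 1 => M.δ (M.state d n) (d (n + 1))

/-- the number of errors on the first `N` terms of `d`: the number of `n < N` such that the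
prediction made after reading `d 1, …, d n` is not `d (n + 1)` -/
def Predictor.errors (M : Predictor) (d : ℕ → ℤ) (N : ℕ) : ℕ :=
  ((range N).filter fun n => M.out (M.state d n) ≠ d (n + 1)).card

/-- in every base `b ≥ 2`, for infinitely many `N`, all predictors with at most `N ^ θ` states make more
than `c log N` errors on the first `N` digits of `x` -/
def Hard (θ c x : ℝ) : Prop :=
  ∀ b : ℕ, 2 ≤ b → ∀ N₀ : ℕ, ∃ N : ℕ, N₀ ≤ N ∧ ∀ M : Predictor, (M.Q : ℝ) ≤ (N : ℝ) ^ θ →
    c * Real.log N < M.errors (digit b x) N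

/-- the odd numbers from `11` to `27` -/
def T : Finset ℕ := {11, 13, 15, 17, 19, 21, 23, 25, 27}

/-- `ζ(i) = ∑ 1/(n+1)^i` -/
noncomputable def zeta (i : ℕ) : ℝ := ∑' n : ℕ, 1 / ((n : ℝ) + 1) ^ i

theorem state_eq (M : Predictor) (d : ℕ → ℤ) (n : ℕ) :
    M.state d n = Pool.Agent.R473.FP.run M.δ M.q₀ d n := by
  induction n with
  | zero => rfl
  | succ n ih => rw [Predictor.state, ih]; rfl

theorem errors_eq (M : Predictor) (d : ℕ → ℤ) (N : ℕ) :
    M.errors d N = Pool.Agent.R473.FP.errors M.δ M.q₀ M.out d N := by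
  unfold Predictor.errors Pool.Agent.R473.FP.errors
  simp only [state_eq]

theorem log_num : (T.card : ℝ) * Real.log ((T.card : ℝ) * 1628) < 87 := by
  have hc : T.card = 9 := by decide
  rw [hc]
  push_cast
  have h1 := Real.exp_one_gt_d9
  have h2 : (9 * 1628 : ℝ) ^ 5 ≤ Real.exp 1 ^ 48 := by
    calc (9 * 1628 : ℝ) ^ 5 ≤ 2.7182818283 ^ 48 := by norm_num
      _ ≤ _ := pow_le_pow_left₀ (by norm_num) h1.le _
  have h3 := Real.log_le_log (by positivity) h2
  rw [Real.log_pow, Real.log_pow, Real.log_exp] at h3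
  push_cast at h3
  linarith

theorem meas : ∃ c : ℝ, 0 < c ∧ ∀ q : ℕ, 1 ≤ q → ∀ p : ℕ → ℤ, ∃ j ∈ T,
    c ≤ (q : ℝ) ^ ((1628 : ℝ) - 1) * |(q : ℝ) * zeta j - p j| := by
  obtain ⟨c, hc, hmeas⟩ := Pool.Agent.TH900.XM.measure
  refine ⟨c, hc, fun q hq p => ?_⟩
  obtain ⟨j, hj, h1⟩ := hmeas p q hq
  refine ⟨j, hj, ?_⟩
  have hq0 : (0 : ℝ) < q := by exact_mod_cast hq
  have e1 : (q : ℝ) ^ ((1628 : ℝ) - 1) = (q : ℝ) ^ 1627 := by
    rw [← Real.rpow_natCast]
    norm_num
  have e2 : |(q : ℝ) * zeta j - p j| = q * |zeta j - (p j : ℝ) / q| := by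
    rw [← abs_of_pos hq0, ← abs_mul, abs_of_pos hq0]
    congr 1
    field_simp
  have h2 : c / (q : ℝ) ^ 1628 ≤ |zeta j - (p j : ℝ) / q| := h1
  rw [div_le_iff₀ (by positivity)] at h2
  rw [e1, e2]
  calc c ≤ |zeta j - (p j : ℝ) / q| * (q : ℝ) ^ 1628 := h2
    _ = (q : ℝ) ^ 1627 * (q * |zeta j - (p j : ℝ) / q|) := by ring

theorem Hard.mono {θ θ' c x : ℝ} (h : Hard θ c x) (h1 : θ' ≤ θ) : Hard θ' c x := by
  intro b hb N₀
  obtain ⟨N, hN, h2⟩ := h b hb (max N₀ 1)
  refine ⟨N, (le_max_left _ _).trans hN, fun M hM => h2 M (hM.trans ?_)⟩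
  have hN1 : (1 : ℝ) ≤ N := by exact_mod_cast (le_max_right _ _).trans hN
  exact Real.rpow_le_rpow_of_exponent_le hN1 h1

/-- **Predicting the digits of `ζ(11), ζ(13), …, ζ(27)`.** -/
theorem result :
    -- (1) nine predictors, in nine bases
    (∃ C : ℝ, ∀ (b : ℕ → ℕ) (M : ℕ → Predictor) (N : ℕ → ℕ), (∀ j ∈ T, 2 ≤ b j) →
      ∃ j ∈ T, N j * Real.log (b j) ≤
        (∑ i ∈ range ((∑ j ∈ T, (M j).errors (digit (b j) (zeta j)) (N j)) + 1), (14652 : ℝ) ^ i) *
          (1628 * ∑ j ∈ T, (((M j).Q : ℝ) + 1) * Real.log (b j) + C)) ∧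
    -- (2) one of the numbers is hard for all predictors in all bases
    (∀ θ : ℝ, 0 ≤ θ → θ < 1 → ∃ j ∈ T, Hard θ ((1 - θ) / 87) (zeta j)) ∧
    -- (3) one number for all `θ`
    ∃ j ∈ T, ∀ θ : ℝ, θ < 1 → ∃ c : ℝ, 0 < c ∧ Hard θ c (zeta j) := by
  classical
  obtain ⟨c, hc, hM⟩ := meas
  have two : ∀ θ : ℝ, 0 ≤ θ → θ < 1 → ∃ j ∈ T, Hard θ ((1 - θ) / 87) (zeta j) := by
    intro θ h0 h1
    have h2 : 0 < 1 - θ := by linarith
    obtain ⟨j, hj, h⟩ := Pool.Agent.R473.FV.fam_hard T zeta 1628 c (by norm_num) hc hM θ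
      ((1 - θ) / 87) h0 (by positivity) (by
        rw [div_mul_eq_mul_div, div_lt_iff₀ (by norm_num)]
        exact mul_lt_mul_of_pos_left log_num h2)
    refine ⟨j, hj, fun b hb N₀ => ?_⟩
    obtain ⟨N, hN, h4⟩ := h b hb N₀
    refine ⟨N, hN, fun M hQ => ?_⟩
    rw [errors_eq]
    exact h4 M.Q M.δ M.q₀ M.out hQ
  refine ⟨⟨Real.log 2 + |Real.log c|, fun b M N hb => ?_⟩, two, ?_⟩
  · obtain ⟨j, hj, h⟩ := Pool.Agent.R473.FV.fam_sep T zeta 1628 c (by norm_num) hc hM b hb
      (fun j => (M j).Q) (fun j => (M j).δ) (fun j => (M j).q₀) (fun j => (M j).out) N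
    refine ⟨j, hj, ?_⟩
    have hcard : T.card = 9 := by decide
    have e : ((9 : ℕ) : ℝ) * 1628 = 14652 := by norm_num
    rw [hcard, e] at h
    simp only [errors_eq]
    exact h
  · have h1 : ∀ n : ℕ, ∃ j : T, Hard (1 - 1 / ((n : ℝ) + 1)) (1 / ((n : ℝ) + 1) / 87) (zeta j) := by
      intro n
      have h2 : (0 : ℝ) < (n : ℝ) + 1 := by positivity
      have h3 : 1 / ((n : ℝ) + 1) ≤ 1 := by
        rw [div_le_one h2]
        have : (0 : ℝ) ≤ n := Nat.cast_nonneg n
        linarith
      have h4 : 0 < 1 / ((n : ℝ) + 1) := by positivity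
      obtain ⟨j, hj, h⟩ := two (1 - 1 / ((n : ℝ) + 1)) (by linarith) (by linarith)
      refine ⟨⟨j, hj⟩, ?_⟩
      have e : 1 - (1 - 1 / ((n : ℝ) + 1)) = 1 / ((n : ℝ) + 1) := by ring
      rwa [e] at h
    choose g hg using h1
    obtain ⟨j, hj⟩ := Finite.exists_infinite_fiber g
    rw [Set.infinite_coe_iff] at hj
    refine ⟨j, j.2, fun θ hθ => ?_⟩
    obtain ⟨k, hk⟩ := exists_nat_gt (1 / (1 - θ))
    obtain ⟨n, hn, hkn⟩ := hj.exists_gt k
    have hn1 : g n = j := hn
    have h5 : 0 < 1 - θ := by linarith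
    have h6 : (k : ℝ) < n := by exact_mod_cast hkn
    have h7 : (0 : ℝ) < (n : ℝ) + 1 := by positivity
    refine ⟨1 / ((n : ℝ) + 1) / 87, by positivity, ?_⟩
    have h8 := hg n
    rw [hn1] at h8
    refine h8.mono ?_
    have h9 : 1 / ((n : ℝ) + 1) ≤ 1 - θ := by
      rw [div_le_iff₀ h7]
      rw [div_lt_iff₀ h5] at hk
      nlinarith
    linarith

end Pool.Agent.Results.MP_4f096c_nt.FiniteStatePredictors
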